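import Pool.Agent.H72R3.VC.Prime

set_option autoImplicit false

/-!
# Even orders: at most `n + m - 3` cubes if some prime `p < m` divides `n - 1`

Fix a point `x₀`, a symbol `s ≠ C a x₀` and `m - p - 1` further cubes `U`. For a set `J` of `p` of the
remaining cubes other than `b` there is one point with value `s` at `a` which agrees with `x₀` on
`U ∪ J`; the value at `b` is the colour of `J`, one of `n - 1` values. If there are `n + m - 2` cubes,
then for every set `I` of `p - 2` cubes the pairs `e` for which `I ∪ e` has a given colour are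
disjoint pairs in a set of `n - 1` elements, so at most `(n - 2) / 2` pairs; since there are
`(n - 1) (n - 2) / 2` pairs and `n - 1` colours, there is equality for all `I` and all colours.
Counting the sets `J` of one colour twice gives a contradiction modulo `p`.
-/

namespace Pool.Agent.L7h39.PC

open Pool.Agent.H430R2.PermCubes

/-- the number of supersets of a given set -/
theorem card_supersets {α : Type*} [DecidableEq α] (V I : Finset α) (hI : I ⊆ V) (p : ℕ)
    (hp : I.card ≤ p) :
    ((V.powersetCard p).filter (fun J => I ⊆ J)).card =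
      (V.card - I.card).choose (p - I.card) := by
  classical
  rw [← Finset.card_sdiff_of_subset hI, ← Finset.card_powersetCard]
  refine Finset.card_bij' (fun J _ => J \ I) (fun e _ => e ∪ I) ?_ ?_ ?_ ?_
  · intro J hJ
    obtain ⟨h1, h2⟩ := Finset.mem_filter.1 hJ
    obtain ⟨h3, h4⟩ := Finset.mem_powersetCard.1 h1
    refine Finset.mem_powersetCard.2 ⟨Finset.sdiff_subset_sdiff h3 (Finset.Subset.refl _), ?_⟩
    rw [Finset.card_sdiff_of_subset h2, h4]
  · intro e he
    obtain ⟨h1, h2⟩ := Finset.mem_powersetCard.1 he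
    have hd : Disjoint e I := by
      rw [Finset.disjoint_left]
      intro c hc hc'
      exact (Finset.mem_sdiff.1 (h1 hc)).2 hc'
    refine Finset.mem_filter.2 ⟨Finset.mem_powersetCard.2 ⟨?_, ?_⟩, Finset.subset_union_right⟩
    · intro c hc
      rcases Finset.mem_union.1 hc with hc | hc
      · exact (Finset.mem_sdiff.1 (h1 hc)).1
      · exact hI hc
    · rw [Finset.card_union_of_disjoint hd, h2]; omega
  · intro J hJ
    obtain ⟨h1, h2⟩ := Finset.mem_filter.1 hJ
    exact Finset.sdiff_union_of_subset h2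
  · intro e he
    obtain ⟨h1, h2⟩ := Finset.mem_powersetCard.1 he
    have hd : Disjoint e I := by
      rw [Finset.disjoint_left]
      intro c hc hc'
      exact (Finset.mem_sdiff.1 (h1 hc)).2 hc'
    show (e ∪ I) \ I = e
    rw [Finset.union_sdiff_right, Finset.sdiff_eq_self_of_disjoint hd]

/-- **Tight matchings**: all colour classes are as large as possible. -/
theorem tight {α β : Type*} [DecidableEq α] [DecidableEq β] (V : Finset α) (S : Finset β)
    {n p : ℕ} (hV : V.card = n + p - 3) (hS : S.card = n - 1) (heven : n % 2 = 0) (h4 : 4 ≤ n)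
    (hp : 3 ≤ p) (col : Finset α → β) (h1 : ∀ J ∈ V.powersetCard p, col J ∈ S)
    (h2 : ∀ J ∈ V.powersetCard p, ∀ J' ∈ V.powersetCard p, col J = col J' →
      p - 1 ≤ (J ∩ J').card → J = J') {t : β} (ht : t ∈ S) :
    (n - 2) * (n + p - 3).choose (p - 2) =
      ((V.powersetCard p).filter (fun J => col J = t)).card * (p * (p - 1)) := by
  classical
  -- the bound for one set `I` and one colour
  have hle : ∀ I ∈ V.powersetCard (p - 2), ∀ u ∈ S,
      2 * (((V.powersetCard p).filter (fun J => I ⊆ J)).filter (fun J => col J = u)).card ≤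
        n - 2 := by
    intro I hI u _
    obtain ⟨hIV, hIc⟩ := Finset.mem_powersetCard.1 hI
    set D := ((V.powersetCard p).filter (fun J => I ⊆ J)).filter (fun J => col J = u) with hD
    have hmem : ∀ J ∈ D, J ∈ V.powersetCard p ∧ I ⊆ J ∧ col J = u := by
      intro J hJ
      rw [hD, Finset.mem_filter, Finset.mem_filter] at hJ
      exact ⟨hJ.1.1, hJ.1.2, hJ.2⟩
    have hdis : ∀ J ∈ D, ∀ J' ∈ D, J ≠ J' → Disjoint (J \ I) (J' \ I) := by
      intro J hJ J' hJ' hne
      obtain ⟨a1, a2, a3⟩ := hmem J hJ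
      obtain ⟨b1, b2, b3⟩ := hmem J' hJ'
      rw [Finset.disjoint_left]
      intro c hc hc'
      obtain ⟨c1, c2⟩ := Finset.mem_sdiff.1 hc
      obtain ⟨c3, -⟩ := Finset.mem_sdiff.1 hc'
      apply hne
      apply h2 J a1 J' b1 (a3.trans b3.symm)
      have hsub : insert c I ⊆ J ∩ J' := by
        intro x hx
        rcases Finset.mem_insert.1 hx with rfl | hx
        · exact Finset.mem_inter.2 ⟨c1, c3⟩
        · exact Finset.mem_inter.2 ⟨a2 hx, b2 hx⟩
      have := Finset.card_le_card hsub
      rw [Finset.card_insert_of_notMem c2, hIc] at this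
      omega
    have hcard : (D.biUnion (fun J => J \ I)).card = ∑ J ∈ D, (J \ I).card :=
      Finset.card_biUnion hdis
    have hsum : ∑ J ∈ D, (J \ I).card = D.card * 2 := by
      rw [Finset.sum_const_nat]
      intro J hJ
      obtain ⟨a1, a2, -⟩ := hmem J hJ
      rw [Finset.card_sdiff_of_subset a2, (Finset.mem_powersetCard.1 a1).2, hIc]
      omega
    have hsub : D.biUnion (fun J => J \ I) ⊆ V \ I := by
      intro c hc
      obtain ⟨J, hJ, hc⟩ := Finset.mem_biUnion.1 hc
      obtain ⟨c1, c2⟩ := Finset.mem_sdiff.1 hc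
      exact Finset.mem_sdiff.2 ⟨(Finset.mem_powersetCard.1 (hmem J hJ).1).1 c1, c2⟩
    have hc := Finset.card_le_card hsub
    rw [hcard, hsum, Finset.card_sdiff_of_subset hIV, hV, hIc] at hc
    omega
  -- equality
  have heq : ∀ I ∈ V.powersetCard (p - 2), ∀ u ∈ S,
      2 * (((V.powersetCard p).filter (fun J => I ⊆ J)).filter (fun J => col J = u)).card =
        n - 2 := by
    intro I hI
    obtain ⟨hIV, hIc⟩ := Finset.mem_powersetCard.1 hI
    have hfib := Finset.card_eq_sum_card_fiberwise
      (s := (V.powersetCard p).filter (fun J => I ⊆ J)) (t := S) (f := col)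
      (fun J hJ => h1 J (Finset.mem_filter.1 hJ).1)
    rw [card_supersets V I hIV p (by omega), hV, hIc] at hfib
    have e1 : n + p - 3 - (p - 2) = n - 1 := by omega
    have e2 : p - (p - 2) = 2 := by omega
    rw [e1, e2] at hfib
    have htot : ∑ u ∈ S,
        2 * (((V.powersetCard p).filter (fun J => I ⊆ J)).filter (fun J => col J = u)).card =
        ∑ u ∈ S, (n - 2) := by
      rw [← Finset.mul_sum, ← hfib, Finset.sum_const, hS, smul_eq_mul, Nat.choose_two_right]
      have e3 : n - 1 - 1 = n - 2 := by omega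
      rw [e3]
      apply Nat.mul_div_cancel'
      have : 2 ∣ n - 2 := by omega
      exact Dvd.dvd.mul_left this _
    exact (Finset.sum_eq_sum_iff_of_le (hle I hI)).1 htot
  -- double counting
  set N := (V.powersetCard p).filter (fun J => col J = t) with hN
  have hdc := Finset.sum_card_bipartiteAbove_eq_sum_card_bipartiteBelow
    (s := V.powersetCard (p - 2)) (t := N) (fun I J => I ⊆ J)
  have hL : ∀ I ∈ V.powersetCard (p - 2),
      2 * (Finset.bipartiteAbove (fun I J => I ⊆ J) N I).card = n - 2 := by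
    intro I hI
    rw [← heq I hI t ht]
    congr 2
    ext J
    simp only [Finset.bipartiteAbove, hN, Finset.mem_filter]
    tauto
  have hR : ∀ J ∈ N, (Finset.bipartiteBelow (fun I J => I ⊆ J) (V.powersetCard (p - 2)) J).card =
      p.choose (p - 2) := by
    intro J hJ
    obtain ⟨hJV, hJc⟩ := Finset.mem_powersetCard.1 (Finset.mem_filter.1 hJ).1
    rw [← hJc, ← Finset.card_powersetCard, hJc]
    congr 1
    ext I
    simp only [Finset.bipartiteBelow, Finset.mem_filter, Finset.mem_powersetCard]
    constructor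
    · rintro ⟨⟨-, a⟩, b⟩; exact ⟨b, a⟩
    · rintro ⟨a, b⟩; exact ⟨⟨a.trans hJV, b⟩, a⟩
  have hL' : 2 * ∑ I ∈ V.powersetCard (p - 2),
      (Finset.bipartiteAbove (fun I J => I ⊆ J) N I).card =
      (n + p - 3).choose (p - 2) * (n - 2) := by
    rw [Finset.mul_sum, Finset.sum_congr rfl hL, Finset.sum_const, Finset.card_powersetCard, hV,
      smul_eq_mul]
  rw [hdc, Finset.sum_congr rfl hR, Finset.sum_const, smul_eq_mul] at hL'
  have hch : 2 * p.choose (p - 2) = p * (p - 1) := by
    rw [Nat.choose_symm_of_eq_add (show p = (p - 2) + 2 by omega), Nat.choose_two_right]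
    exact Nat.mul_div_cancel' (Nat.even_mul_pred_self p).two_dvd
  rw [mul_comm (n - 2), ← hL', ← hch]
  ring

variable {m n k : ℕ} {C : Fin k → (Fin m → Fin n) → Fin n}

/-- `(n + p - 3).choose (p - 2)` is not divisible by a prime divisor `p` of `n - 1` -/
theorem choose_not_dvd {n p : ℕ} (hp : p.Prime) (hn : 2 ≤ n) (hpn : p ∣ n - 1) :
    ¬ p ∣ (n + p - 3).choose (p - 2) := by
  intro hd
  have hp2 := hp.two_le
  apply Pool.Agent.H72R3.VC.choose_not_dvd hp hn hpn
  have h := Nat.add_one_mul_choose_eq (n + p - 3) (p - 2)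
  have e1 : n + p - 3 + 1 = n + p - 2 := by omega
  have e2 : p - 2 + 1 = p - 1 := by omega
  rw [e1, e2] at h
  have h1 : p ∣ (n + p - 2).choose (p - 1) * (p - 1) := by
    rw [← h]; exact Dvd.dvd.mul_left hd _
  rcases (Nat.Prime.dvd_mul hp).1 h1 with h2 | h2
  · exact h2
  · exfalso
    have := Nat.le_of_dvd (by omega) h2
    omega

/-- **Even orders**: at most `n + m - 3` cubes if some prime `p < m` divides `n - 1`. -/
theorem le_even (h : IsArray m n k C) (heven : n % 2 = 0) (h4 : 4 ≤ n) {p : ℕ} (hp : p.Prime)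
    (hpm : p < m) (hpn : p ∣ n - 1) : k ≤ n + m - 3 := by
  classical
  have hp2 := hp.two_le
  have hp3 : 3 ≤ p := by
    by_contra h'
    have : p = 2 := by omega
    subst this
    omega
  by_contra hcon
  push Not at hcon
  have h0 : (0 : ℕ) < n := by omega
  let x₀ : Fin m → Fin n := fun _ => ⟨0, h0⟩
  have : Nontrivial (Fin n) := Fin.nontrivial_iff_two_le.2 (by omega)
  obtain ⟨U, -, hU⟩ := Finset.exists_subset_card_eq
    (show m - (p + 1) ≤ (Finset.univ : Finset (Fin k)).card by simp; omega)
  have hUc : (Uᶜ : Finset (Fin k)).card = k - (m - (p + 1)) := by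
    rw [Finset.card_compl, Fintype.card_fin, hU]
  obtain ⟨W, hWU, hW⟩ := Finset.exists_subset_card_eq
    (show n + p - 1 ≤ (Uᶜ : Finset (Fin k)).card by rw [hUc]; omega)
  have hWnU : ∀ c ∈ W, c ∉ U := fun c hc => by simpa using hWU hc
  obtain ⟨a, ha⟩ : W.Nonempty := by rw [← Finset.card_pos]; omega
  obtain ⟨b, hb⟩ : (W.erase a).Nonempty := by
    rw [← Finset.card_pos, Finset.card_erase_of_mem ha]; omega
  have hbW := Finset.mem_of_mem_erase hb
  have hba : b ≠ a := Finset.ne_of_mem_erase hb
  obtain ⟨s, hs⟩ := exists_ne (C a x₀)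
  set V := (W.erase a).erase b with hV
  have hVc : V.card = n + p - 3 := by
    rw [hV, Finset.card_erase_of_mem hb, Finset.card_erase_of_mem ha]; omega
  have hVW : ∀ c ∈ V, c ∈ W ∧ c ≠ a ∧ c ≠ b := by
    intro c hc
    have h1 := Finset.mem_of_mem_erase hc
    exact ⟨Finset.mem_of_mem_erase h1, Finset.ne_of_mem_erase h1, Finset.ne_of_mem_erase hc⟩
  have hdisU : ∀ T ⊆ V, Disjoint T U := by
    intro T hT
    rw [Finset.disjoint_left]
    intro c hc
    exact hWnU c (hVW c (hT hc)).1
  have haN : ∀ T ⊆ V, a ∉ T ∪ U := by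
    intro T hT ha'
    rcases Finset.mem_union.1 ha' with h' | h'
    · exact (hVW a (hT h')).2.1 rfl
    · exact hWnU a ha h'
  have hbN : ∀ T ⊆ V, b ∉ T ∪ U := by
    intro T hT hb'
    rcases Finset.mem_union.1 hb' with h' | h'
    · exact (hVW b (hT h')).2.2 rfl
    · exact hWnU b hbW h'
  have hex : ∀ J ∈ V.powersetCard p, ∃ y, C a y = s ∧ ∀ i ∈ J ∪ U, C i y = C i x₀ := by
    intro J hJ
    obtain ⟨hJV, hJc⟩ := Finset.mem_powersetCard.1 hJ
    obtain ⟨y, hy⟩ := h.exists_point (insert a (J ∪ U))
      (by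
        rw [Finset.card_insert_of_notMem (haN J hJV),
          Finset.card_union_of_disjoint (hdisU J hJV), hJc, hU]
        omega)
      (fun i => if i = a then s else C i x₀)
    refine ⟨y, by simpa using hy a (Finset.mem_insert_self _ _), fun i hi => ?_⟩
    have hia : i ≠ a := by rintro rfl; exact haN J hJV hi
    simpa [hia] using hy i (Finset.mem_insert_of_mem hi)
  choose! g hg1 hg2 using hex
  have hne : ∀ J ∈ V.powersetCard p, g J ≠ x₀ := by
    intro J hJ h'
    exact hs (by rw [← hg1 J hJ, h'])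
  -- the point of `J` agrees with `x₀` nowhere else
  have hmax : ∀ J ∈ V.powersetCard p, ∀ c, c ∉ J ∪ U → C c (g J) ≠ C c x₀ := by
    intro J hJ c hc hcc
    obtain ⟨hJV, hJc⟩ := Finset.mem_powersetCard.1 hJ
    apply hne J hJ
    refine h.eq_of_agree (insert c (J ∪ U)) ?_ ?_
    · rw [Finset.card_insert_of_notMem hc, Finset.card_union_of_disjoint (hdisU J hJV), hJc, hU]
      omega
    · intro i hi
      rcases Finset.mem_insert.1 hi with rfl | hi
      · exact hcc
      · exact hg2 J hJ i hi
  have hkey : ∀ J ∈ V.powersetCard p, ∀ J' ∈ V.powersetCard p,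
      C b (g J) = C b (g J') → p - 1 ≤ (J ∩ J').card → J = J' := by
    intro J hJ J' hJ' hcol hint
    obtain ⟨hJV, hJc⟩ := Finset.mem_powersetCard.1 hJ
    obtain ⟨hJ'V, hJ'c⟩ := Finset.mem_powersetCard.1 hJ'
    have hIV : J ∩ J' ⊆ V := Finset.inter_subset_left.trans hJV
    have hgg : g J = g J' := by
      refine h.eq_of_agree (insert a (insert b ((J ∩ J') ∪ U))) ?_ ?_
      · rw [Finset.card_insert_of_notMem, Finset.card_insert_of_notMem (hbN _ hIV),
          Finset.card_union_of_disjoint (hdisU _ hIV), hU]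
        · omega
        · intro h'
          rcases Finset.mem_insert.1 h' with h' | h'
          · exact hba h'.symm
          · exact haN _ hIV h'
      · intro i hi
        rcases Finset.mem_insert.1 hi with rfl | hi
        · rw [hg1 J hJ, hg1 J' hJ']
        rcases Finset.mem_insert.1 hi with rfl | hi
        · exact hcol
        rcases Finset.mem_union.1 hi with hi | hi
        · obtain ⟨h1, h2⟩ := Finset.mem_inter.1 hi
          rw [hg2 J hJ i (Finset.mem_union_left _ h1), hg2 J' hJ' i (Finset.mem_union_left _ h2)]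
        · rw [hg2 J hJ i (Finset.mem_union_right _ hi), hg2 J' hJ' i (Finset.mem_union_right _ hi)]
    apply Finset.eq_of_subset_of_card_le
    · intro c hc
      by_contra hcJ'
      have hcU : c ∉ U := hWnU c (hVW c (hJV hc)).1
      refine hmax J' hJ' c ?_ ?_
      · intro h'
        rcases Finset.mem_union.1 h' with h' | h'
        · exact hcJ' h'
        · exact hcU h'
      · rw [← hgg]
        exact hg2 J hJ c (Finset.mem_union_left _ hc)
    · rw [hJc, hJ'c]
  obtain ⟨t, ht⟩ := exists_ne (C b x₀)
  have hmain := tight V (Finset.univ.erase (C b x₀)) (n := n) (p := p) hVc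
    (by rw [Finset.card_erase_of_mem (Finset.mem_univ _), Finset.card_univ, Fintype.card_fin])
    heven h4 hp3 (fun J => C b (g J))
    (by
      intro J hJ
      refine Finset.mem_erase.2 ⟨?_, Finset.mem_univ _⟩
      exact hmax J hJ b (hbN J (Finset.mem_powersetCard.1 hJ).1))
    hkey (t := t) (Finset.mem_erase.2 ⟨ht, Finset.mem_univ _⟩)
  have hd : p ∣ (n - 2) * (n + p - 3).choose (p - 2) := by
    rw [hmain]
    exact Dvd.dvd.mul_left (Dvd.intro _ rfl) _
  rcases (Nat.Prime.dvd_mul hp).1 hd with h1 | h1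
  · have h2 : p ∣ (n - 1) - (n - 2) := Nat.dvd_sub hpn h1
    have e : (n - 1) - (n - 2) = 1 := by omega
    rw [e] at h2
    have := Nat.le_of_dvd one_pos h2
    omega
  · exact choose_not_dvd hp (by omega) hpn h1

end Pool.Agent.L7h39.PC
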